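import Mathlib

set_option autoImplicit false

open scoped InnerProductSpace

namespace Pool.Agent.Results.MP_65e938_an.ReductiveNormal

/-- the ramp `clamp (t - x_i) 0 h` with `x_i = a + i h` -/
noncomputable def k (a h : ℝ) (i : ℕ) (t : ℝ) : ℝ :=
  max 0 (t - (a + (i : ℝ) * h)) - max 0 (t - (a + ((i + 1 : ℕ) : ℝ) * h))

variable {a h : ℝ}

theorem k_cont (i : ℕ) : Continuous (k a h i) := by
  unfold k; fun_prop

theorem k_zero (hh : 0 < h) {i : ℕ} {t : ℝ} (ht : t ≤ a + (i : ℝ) * h) : k a h i t = 0 := by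
  unfold k
  push_cast
  rw [max_eq_left (by linarith), max_eq_left (by nlinarith)]
  ring

theorem k_top (hh : 0 < h) {i : ℕ} {t : ℝ} (ht : a + ((i : ℝ) + 1) * h ≤ t) : k a h i t = h := by
  unfold k
  push_cast
  rw [max_eq_right (by nlinarith), max_eq_right (by linarith)]
  ring

theorem k_nonneg (hh : 0 < h) (i : ℕ) (t : ℝ) : 0 ≤ k a h i t := by
  unfold k
  push_cast
  have : max 0 (t - (a + ((i : ℝ) + 1) * h)) ≤ max 0 (t - (a + (i : ℝ) * h)) :=
    max_le_max le_rfl (by nlinarith)
  linarith

theorem k_le (hh : 0 < h) (i : ℕ) (t : ℝ) : k a h i t ≤ h := by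
  unfold k
  push_cast
  have : max 0 (t - (a + (i : ℝ) * h)) ≤ max 0 (t - (a + ((i : ℝ) + 1) * h)) + h := by
    refine max_le ?_ ?_
    · have := le_max_left 0 (t - (a + ((i : ℝ) + 1) * h)); linarith
    · have := le_max_right 0 (t - (a + ((i : ℝ) + 1) * h)); linarith
  linarith

theorem k_anti (hh : 0 < h) (i : ℕ) (t : ℝ) : k a h (i + 1) t ≤ k a h i t := by
  rcases le_total t (a + ((i : ℝ) + 1) * h) with ht | ht
  · rw [k_zero hh (by push_cast; linarith)]
    exact k_nonneg hh i t
  · rw [k_top hh ht]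
    exact k_le hh _ t

theorem k_mul (hh : 0 < h) (i : ℕ) (t : ℝ) : k a h (i + 1) t * (h - k a h i t) = 0 := by
  rcases le_total t (a + ((i : ℝ) + 1) * h) with ht | ht
  · rw [k_zero hh (by push_cast; linarith)]; ring
  · rw [k_top hh ht]; ring

theorem k_mul' (hh : 0 < h) (i : ℕ) (t : ℝ) :
    (k a h (i + 1) t - k a h (i + 2) t) * (h - k a h i t) = 0 := by
  rcases le_total t (a + ((i : ℝ) + 1) * h) with ht | ht
  · rw [k_zero hh (by push_cast; linarith), k_zero hh (by push_cast; nlinarith)]; ring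
  · rw [k_top hh ht]; ring

theorem k_sum (n : ℕ) (t : ℝ) : ∑ i ∈ Finset.range n, k a h (i + 1) t =
    max 0 (t - (a + h)) - max 0 (t - (a + ((n : ℝ) + 1) * h)) := by
  induction n with
  | zero => simp
  | succ n ih =>
    rw [Finset.sum_range_succ, ih]
    unfold k
    push_cast
    ring_nf

theorem tau_sq (hh : 0 < h) (m : ℕ) (t : ℝ) :
    ∑ i ∈ Finset.range m, (k a h i t - k a h (i + 1) t) * (k a h i t - k a h (i + 1) t)
      ≤ h * h := by
  have h1 : ∀ i ∈ Finset.range m,
      (k a h i t - k a h (i + 1) t) * (k a h i t - k a h (i + 1) t) ≤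
        h * (k a h i t - k a h (i + 1) t) := by
    intro i _
    have h2 := k_anti (a := a) hh i t
    have h3 := k_nonneg (a := a) hh (i + 1) t
    have h4 := k_le (a := a) hh i t
    exact mul_le_mul_of_nonneg_right (by linarith) (by linarith)
  refine (Finset.sum_le_sum h1).trans ?_
  rw [← Finset.mul_sum, Finset.sum_range_sub']
  have h3 := k_nonneg (a := a) hh m t
  have h4 := k_le (a := a) hh 0 t
  exact mul_le_mul_of_nonneg_left (by linarith) hh.le

section op

variable {H : Type*} [NormedAddCommGroup H] [InnerProductSpace ℂ H] [CompleteSpace H]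

theorem sum_norm_sq (hh : 0 < h) (S : H →L[ℂ] H) (hS : IsSelfAdjoint S) (m : ℕ) (x : H) :
    ∑ i ∈ Finset.range m, ‖(cfc (k a h i) S - cfc (k a h (i + 1)) S) x‖ ^ 2 ≤
      h * h * ‖x‖ ^ 2 := by
  set F : ℝ → ℝ := fun t => ∑ i ∈ Finset.range m,
    (k a h i t - k a h (i + 1) t) * (k a h i t - k a h (i + 1) t) with hF
  have hcont : ∀ i, Continuous (fun t => k a h i t - k a h (i + 1) t) := fun i =>
    (k_cont i).sub (k_cont (i + 1))
  have hsub : ∀ i, cfc (k a h i) S - cfc (k a h (i + 1)) S =
      cfc (fun t => k a h i t - k a h (i + 1) t) S := by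
    intro i
    rw [cfc_sub (k a h i) (k a h (i + 1)) S (k_cont i).continuousOn (k_cont _).continuousOn]
  have hFe : cfc F S = ∑ i ∈ Finset.range m,
      (cfc (k a h i) S - cfc (k a h (i + 1)) S) * (cfc (k a h i) S - cfc (k a h (i + 1)) S) := by
    rw [hF]
    have := cfc_sum (fun i t => (k a h i t - k a h (i + 1) t) * (k a h i t - k a h (i + 1) t))
      S (Finset.range m) (fun i _ => ((hcont i).mul (hcont i)).continuousOn)
    rw [show (fun t => ∑ i ∈ Finset.range m,
        (k a h i t - k a h (i + 1) t) * (k a h i t - k a h (i + 1) t)) =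
        ∑ i ∈ Finset.range m, fun t =>
          (k a h i t - k a h (i + 1) t) * (k a h i t - k a h (i + 1) t) by
        ext t; simp, this]
    refine Finset.sum_congr rfl (fun i _ => ?_)
    rw [hsub i, ← cfc_mul _ _ S (hcont i).continuousOn (hcont i).continuousOn]
  have hnorm : ‖cfc F S‖ ≤ h * h := by
    refine norm_cfc_le (by positivity) (fun t _ => ?_)
    rw [Real.norm_of_nonneg]
    · exact tau_sq hh m t
    · exact Finset.sum_nonneg (fun i _ => mul_self_nonneg _)
  have hsq : ∀ i, ‖(cfc (k a h i) S - cfc (k a h (i + 1)) S) x‖ ^ 2 =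
      RCLike.re ⟪((cfc (k a h i) S - cfc (k a h (i + 1)) S) *
        (cfc (k a h i) S - cfc (k a h (i + 1)) S)) x, x⟫_ℂ := by
    intro i
    set T := cfc (k a h i) S - cfc (k a h (i + 1)) S with hT
    have s1 : IsSelfAdjoint (cfc (k a h i) S) := cfc_predicate _ S
    have s2 : IsSelfAdjoint (cfc (k a h (i + 1)) S) := cfc_predicate _ S
    have hTsa : IsSelfAdjoint T := s1.sub s2
    rw [ContinuousLinearMap.mul_apply, ← ContinuousLinearMap.adjoint_inner_right,
      ← ContinuousLinearMap.star_eq_adjoint, hTsa.star_eq, inner_self_eq_norm_sq]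
  calc ∑ i ∈ Finset.range m, ‖(cfc (k a h i) S - cfc (k a h (i + 1)) S) x‖ ^ 2
      = RCLike.re ⟪(cfc F S) x, x⟫_ℂ := by
        rw [hFe, ContinuousLinearMap.sum_apply, sum_inner, map_sum]
        exact Finset.sum_congr rfl (fun i _ => hsq i)
    _ ≤ ‖⟪(cfc F S) x, x⟫_ℂ‖ := RCLike.re_le_norm _
    _ ≤ ‖(cfc F S) x‖ * ‖x‖ := norm_inner_le_norm _ _
    _ ≤ (‖cfc F S‖ * ‖x‖) * ‖x‖ := by gcongr; exact ContinuousLinearMap.le_opNorm _ _
    _ ≤ (h * h * ‖x‖) * ‖x‖ := by gcongr
    _ = h * h * ‖x‖ ^ 2 := by ring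

theorem comm_of_local (S B : H →L[ℂ] H) (hS : IsSelfAdjoint S)
    (hloc : ∀ f g : ℝ → ℝ, Continuous f → Continuous g → (∀ t, f t * g t = 0) →
      cfc f S * B * cfc g S = 0) : S * B = B * S := by
  have key : ∀ x y : H, ∀ h : ℝ, 0 < h →
      ‖⟪(S * B - B * S) x, y⟫_ℂ‖ ≤ h * (‖B‖ * (‖x‖ ^ 2 + ‖y‖ ^ 2)) := by
    intro x y h hh
    set R := ‖S‖ * ‖(1 : H →L[ℂ] H)‖ with hR
    set a := -R - h with ha
    obtain ⟨n, hn⟩ := exists_nat_ge (2 * R / h)
    have hn' : 2 * R ≤ n * h := by rwa [div_le_iff₀ hh] at hn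
    set K : ℕ → (H →L[ℂ] H) := fun i => cfc (k a h i) S with hK
    have hKc : ∀ i, cfc (fun t => h - k a h i t) S = algebraMap ℝ (H →L[ℂ] H) h - K i := by
      intro i
      rw [cfc_sub (fun _ => h) (k a h i) S (by fun_prop) (k_cont i).continuousOn, cfc_const h S]
    have hτ : ∀ i, cfc (fun t => k a h i t - k a h (i + 1) t) S = K i - K (i + 1) := by
      intro i
      rw [cfc_sub (k a h i) (k a h (i + 1)) S (k_cont i).continuousOn (k_cont _).continuousOn]
    set c := algebraMap ℝ (H →L[ℂ] H) h with hc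
    have c1 : ∀ i, Continuous (fun t => h - k a h i t) := fun i => continuous_const.sub (k_cont i)
    have c2 : ∀ i, Continuous (fun t => k a h i t - k a h (i + 1) t) := fun i =>
      (k_cont i).sub (k_cont (i + 1))
    have e1 : ∀ i, K (i + 2) * B * (c - K (i + 1)) = 0 := by
      intro i; rw [← hKc]; exact hloc _ _ (k_cont _) (c1 _) (fun t => k_mul hh (i + 1) t)
    have e2 : ∀ i, (K (i + 1) - K (i + 2)) * B * (c - K i) = 0 := by
      intro i; rw [← hKc, ← hτ]; exact hloc _ _ (c2 _) (c1 _) (fun t => k_mul' hh i t)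
    have e3 : ∀ i, (c - K (i + 1)) * B * K (i + 2) = 0 := by
      intro i; rw [← hKc]
      exact hloc _ _ (c1 _) (k_cont _) (fun t => by rw [mul_comm]; exact k_mul hh (i + 1) t)
    have e4 : ∀ i, (c - K i) * B * (K (i + 1) - K (i + 2)) = 0 := by
      intro i; rw [← hKc, ← hτ]
      exact hloc _ _ (c1 _) (c2 _) (fun t => by rw [mul_comm]; exact k_mul' hh i t)
    have hcc : ∀ Z : H →L[ℂ] H, c * Z = Z * c := fun Z => Algebra.commutes h Z
    have hcomm : ∀ i, c * (K (i + 1) * B - B * K (i + 1)) =
        (K (i + 1) - K (i + 2)) * B * (K i - K (i + 1)) -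
          (K i - K (i + 1)) * B * (K (i + 1) - K (i + 2)) := by
      intro i
      have f1 : c * (K (i + 1) * B - B * K (i + 1)) =
          K (i + 1) * B * (c - K (i + 1)) - (c - K (i + 1)) * B * K (i + 1) := by
        have g1 : c * (K (i + 1) * B) = K (i + 1) * B * c := by rw [hcc]
        have g2 : (c - K (i + 1)) * B * K (i + 1) = c * (B * K (i + 1)) -
            K (i + 1) * B * K (i + 1) := by noncomm_ring
        rw [mul_sub, g1, g2]
        noncomm_ring
      have f2 : K (i + 1) * B * (c - K (i + 1)) =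
          (K (i + 1) - K (i + 2)) * B * (K i - K (i + 1)) +
          (K (i + 1) - K (i + 2)) * B * (c - K i) + K (i + 2) * B * (c - K (i + 1)) := by
        noncomm_ring
      have f3 : (c - K (i + 1)) * B * K (i + 1) =
          (K i - K (i + 1)) * B * (K (i + 1) - K (i + 2)) +
          (c - K i) * B * (K (i + 1) - K (i + 2)) + (c - K (i + 1)) * B * K (i + 2) := by
        noncomm_ring
      rw [f1, f2, f3, e1, e2, e3, e4]
      simp
    have hsum : S = algebraMap ℝ (H →L[ℂ] H) (-R) + ∑ i ∈ Finset.range n, K (i + 1) := by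
      have h1 : cfc (fun t : ℝ => -R + ∑ i ∈ Finset.range n, k a h (i + 1) t) S = S := by
        conv_rhs => rw [← cfc_id ℝ S]
        refine cfc_congr (fun t ht => ?_)
        have hb : |t| ≤ R := by
          have := spectrum.norm_le_norm_mul_of_mem ht
          simpa using this
        rw [abs_le] at hb
        simp only [id]
        rw [k_sum, ha, max_eq_right (by linarith), max_eq_left (by linarith)]
        ring
      have h2 : cfc (fun t : ℝ => -R + ∑ i ∈ Finset.range n, k a h (i + 1) t) S =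
          algebraMap ℝ (H →L[ℂ] H) (-R) + ∑ i ∈ Finset.range n, K (i + 1) := by
        rw [cfc_add (f := fun _ => -R) (g := fun t => ∑ i ∈ Finset.range n, k a h (i + 1) t)
          (a := S) (by fun_prop)
          ((continuous_finset_sum _ (fun i _ => k_cont (i + 1))).continuousOn), cfc_const (-R) S]
        congr 1
        have := cfc_sum (fun i t => k a h (i + 1) t) S (Finset.range n)
          (fun i _ => (k_cont (i + 1)).continuousOn)
        rw [show (fun t => ∑ i ∈ Finset.range n, k a h (i + 1) t) =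
          ∑ i ∈ Finset.range n, fun t => k a h (i + 1) t by ext t; simp, this]
      rw [← h2, h1]
    have hSB : c * (S * B - B * S) = ∑ i ∈ Finset.range n,
        ((K (i + 1) - K (i + 2)) * B * (K i - K (i + 1)) -
          (K i - K (i + 1)) * B * (K (i + 1) - K (i + 2))) := by
      have h1 : S * B - B * S = ∑ i ∈ Finset.range n, (K (i + 1) * B - B * K (i + 1)) := by
        conv_lhs => rw [hsum]
        rw [add_mul, mul_add, Algebra.commutes (-R) B, Finset.sum_mul, Finset.mul_sum,
          Finset.sum_sub_distrib]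
        abel
      rw [h1, Finset.mul_sum]
      exact Finset.sum_congr rfl (fun i _ => hcomm i)
    have hsa : ∀ i, IsSelfAdjoint (K i - K (i + 1)) := by
      intro i
      have s1 : IsSelfAdjoint (K i) := cfc_predicate _ S
      have s2 : IsSelfAdjoint (K (i + 1)) := cfc_predicate _ S
      exact s1.sub s2
    have hinner : ∀ i (u v : H), ⟪(K i - K (i + 1)) u, v⟫_ℂ = ⟪u, (K i - K (i + 1)) v⟫_ℂ := by
      intro i u v
      rw [← ContinuousLinearMap.adjoint_inner_right, ← ContinuousLinearMap.star_eq_adjoint,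
        (hsa i).star_eq]
    have hb : ∀ T T' : H →L[ℂ] H, (∀ u v : H, ⟪T' u, v⟫_ℂ = ⟪u, T' v⟫_ℂ) →
        ‖⟪(T' * B * T) x, y⟫_ℂ‖ ≤ ‖B‖ / 2 * (‖T x‖ ^ 2 + ‖T' y‖ ^ 2) := by
      intro T T' hT'
      have h1 : ⟪(T' * B * T) x, y⟫_ℂ = ⟪B (T x), T' y⟫_ℂ := by
        rw [← hT']; rfl
      rw [h1]
      have h2 : ‖⟪B (T x), T' y⟫_ℂ‖ ≤ ‖B‖ * ‖T x‖ * ‖T' y‖ :=
        (norm_inner_le_norm _ _).trans (by gcongr; exact ContinuousLinearMap.le_opNorm _ _)
      have h3 : ‖T x‖ * ‖T' y‖ ≤ (‖T x‖ ^ 2 + ‖T' y‖ ^ 2) / 2 := by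
        nlinarith [sq_nonneg (‖T x‖ - ‖T' y‖)]
      calc ‖⟪B (T x), T' y⟫_ℂ‖ ≤ ‖B‖ * ‖T x‖ * ‖T' y‖ := h2
        _ = ‖B‖ * (‖T x‖ * ‖T' y‖) := by ring
        _ ≤ ‖B‖ * ((‖T x‖ ^ 2 + ‖T' y‖ ^ 2) / 2) := by gcongr
        _ = _ := by ring
    have hc1 : ⟪(c * (S * B - B * S)) x, y⟫_ℂ = (h : ℂ) * ⟪(S * B - B * S) x, y⟫_ℂ := by
      rw [hc, Algebra.algebraMap_eq_smul_one, smul_mul_assoc, one_mul]
      rw [show (h • (S * B - B * S)) x = (h : ℂ) • ((S * B - B * S) x) by
        rw [ContinuousLinearMap.smul_apply]; exact (Complex.coe_smul h _).symm]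
      rw [inner_smul_left, Complex.conj_ofReal]
    have hfirst : ‖(h : ℂ) * ⟪(S * B - B * S) x, y⟫_ℂ‖ ≤
        ∑ i ∈ Finset.range n, ‖B‖ / 2 * ((‖(K i - K (i + 1)) x‖ ^ 2 +
          ‖(K (i + 1) - K (i + 2)) y‖ ^ 2) + (‖(K (i + 1) - K (i + 2)) x‖ ^ 2 +
          ‖(K i - K (i + 1)) y‖ ^ 2)) := by
      rw [← hc1, hSB, ContinuousLinearMap.sum_apply, sum_inner]
      refine (norm_sum_le _ _).trans (Finset.sum_le_sum (fun i _ => ?_))
      rw [ContinuousLinearMap.sub_apply, inner_sub_left]
      refine (norm_sub_le _ _).trans ?_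
      rw [mul_add]
      exact add_le_add (hb _ _ (hinner (i + 1))) (hb _ _ (hinner i))
    have q1 : ∀ z : H, ∑ i ∈ Finset.range n, ‖(K i - K (i + 1)) z‖ ^ 2 ≤ h * h * ‖z‖ ^ 2 :=
      fun z => sum_norm_sq hh S hS n z
    have q2 : ∀ z : H, ∑ i ∈ Finset.range n, ‖(K (i + 1) - K (i + 2)) z‖ ^ 2 ≤
        h * h * ‖z‖ ^ 2 := by
      intro z
      have h1 := sum_norm_sq (a := a) hh S hS (n + 1) z
      rw [Finset.sum_range_succ'] at h1
      have h2 : 0 ≤ ‖(cfc (k a h 0) S - cfc (k a h (0 + 1)) S) z‖ ^ 2 := by positivity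
      have h3 : ∑ i ∈ Finset.range n, ‖(K (i + 1) - K (i + 2)) z‖ ^ 2 =
        ∑ i ∈ Finset.range n, ‖(cfc (k a h (i + 1)) S - cfc (k a h (i + 1 + 1)) S) z‖ ^ 2 := rfl
      rw [h3]
      linarith
    have hsecond : ‖(h : ℂ) * ⟪(S * B - B * S) x, y⟫_ℂ‖ ≤
        h * (h * (‖B‖ * (‖x‖ ^ 2 + ‖y‖ ^ 2))) := by
      refine hfirst.trans ?_
      rw [← Finset.mul_sum, Finset.sum_add_distrib, Finset.sum_add_distrib,
        Finset.sum_add_distrib]
      calc ‖B‖ / 2 * _ ≤ ‖B‖ / 2 * ((h * h * ‖x‖ ^ 2 + h * h * ‖y‖ ^ 2) +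
            (h * h * ‖x‖ ^ 2 + h * h * ‖y‖ ^ 2)) := by
            gcongr
            · exact q1 x
            · exact q2 y
            · exact q2 x
            · exact q1 y
        _ = _ := by ring
    rw [norm_mul, Complex.norm_real, Real.norm_of_nonneg hh.le] at hsecond
    exact le_of_mul_le_mul_left hsecond hh
  have hzero : ∀ x y : H, ⟪(S * B - B * S) x, y⟫_ℂ = 0 := by
    intro x y
    by_contra hne
    have hpos : 0 < ‖⟪(S * B - B * S) x, y⟫_ℂ‖ := norm_pos_iff.2 hne
    set v := ‖⟪(S * B - B * S) x, y⟫_ℂ‖ with hv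
    set q := ‖B‖ * (‖x‖ ^ 2 + ‖y‖ ^ 2) with hq
    have hq0 : 0 ≤ q := by positivity
    have h1 := key x y (v / (2 * (q + 1))) (by positivity)
    rw [← hv, ← hq, div_mul_eq_mul_div, le_div_iff₀ (by positivity)] at h1
    nlinarith
  have hD : S * B - B * S = 0 := by
    ext x
    have := hzero x ((S * B - B * S) x)
    rw [inner_self_eq_zero] at this
    simpa using this
  exact sub_eq_zero.1 hD

/-- **Main theorem, general form.** If every invariant subspace of `A` reduces `A`, `N` is normal,
`X A = N X` with `X` injective and `A Y = Y N` with `Y` of dense range, then `A` is normal. -/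
theorem normal_of_reductive (A N X Y : H →L[ℂ] H) (hN : IsStarNormal N)
    (hXinj : Function.Injective X) (hYdense : DenseRange Y)
    (hXA : X * A = N * X) (hAY : A * Y = Y * N)
    (hred : ∀ M : Submodule ℂ H, IsClosed (M : Set H) → (∀ x ∈ M, A x ∈ M) →
      ∀ x ∈ M, (star A) x ∈ M) :
    IsStarNormal A := by
  -- every operator commuting with `N` commutes with the real functions of the real and
  -- imaginary parts of `N`
  have hcommN : ∀ C : H →L[ℂ] H, Commute N C → ∀ S : H →L[ℂ] H,
      (S = N + star N ∨ S = Complex.I • (N - star N)) → ∀ f : ℝ → ℝ, Commute (cfc f S) C := by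
    intro C hC S hSN f
    have hC' : Commute (star N) C := hN.commute_star_left hC
    refine Commute.cfc_real ?_ f
    rcases hSN with rfl | rfl
    · exact hC.add_left hC'
    · exact (hC.sub_left hC').smul_left _
  have hXY : Commute N (X * Y) := by
    show N * (X * Y) = X * Y * N
    rw [← mul_assoc, ← hXA, mul_assoc, hAY, mul_assoc]
  -- the main claim
  have hcommS : ∀ S : H →L[ℂ] H, (S = N + star N ∨ S = Complex.I • (N - star N)) →
      IsSelfAdjoint S → S * (star Y * Y) = (star Y * Y) * S := by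
    intro S hSN hS
    refine comm_of_local S (star Y * Y) hS ?_
    intro f g hf hg hfg
    set F := cfc f S with hF
    set G := cfc g S with hG
    have hFsa : IsSelfAdjoint F := cfc_predicate _ S
    have hFN : Commute F N := hcommN N (Commute.refl N) S hSN f
    have hFXY : Commute F (X * Y) := hcommN _ hXY S hSN f
    have hGF : G * F = 0 := by
      rw [hG, hF, ← cfc_mul g f S hg.continuousOn hf.continuousOn]
      have : (fun t => g t * f t) = fun _ => 0 := by
        ext t; rw [mul_comm]; exact hfg t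
      rw [this]
      simp
    set M : Submodule ℂ H :=
      (LinearMap.range ((Y * F : H →L[ℂ] H) : H →ₗ[ℂ] H)).topologicalClosure with hM
    have hMclosed : IsClosed (M : Set H) := Submodule.isClosed_topologicalClosure _
    have : CompleteSpace M := hMclosed.completeSpace_coe
    have hMinv : ∀ x ∈ M, A x ∈ M := by
      have h1 : Set.MapsTo A (Set.range (Y * F : H →L[ℂ] H)) (Set.range (Y * F : H →L[ℂ] H)) := by
        rintro _ ⟨w, rfl⟩
        refine ⟨N w, ?_⟩
        show (Y * F * N) w = (A * (Y * F)) w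
        rw [← mul_assoc, hAY, mul_assoc, mul_assoc, hFN.eq]
      have h2 := h1.closure A.continuous
      intro x hx
      exact h2 hx
    have hMstar := hred M hMclosed hMinv
    set P := M.starProjection with hP
    have hPmem : ∀ x, P x ∈ M := fun x => Submodule.starProjection_apply_mem M x
    have hPA : P * A = A * P := by
      ext x
      show M.starProjection (A x) = A (M.starProjection x)
      refine Submodule.eq_starProjection_of_mem_of_inner_eq_zero
        (hMinv _ (Submodule.starProjection_apply_mem M x)) (fun w hw => ?_)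
      rw [← map_sub, ← ContinuousLinearMap.adjoint_inner_right,
        ← ContinuousLinearMap.star_eq_adjoint]
      exact Submodule.starProjection_inner_eq_zero x _ (hMstar w hw)
    have hCN : Commute N (X * P * Y) := by
      show N * (X * P * Y) = X * P * Y * N
      calc N * (X * P * Y) = (N * X) * P * Y := by simp only [mul_assoc]
        _ = X * (A * P) * Y := by rw [← hXA]; simp only [mul_assoc]
        _ = X * (P * A) * Y := by rw [hPA]
        _ = X * P * (A * Y) := by simp only [mul_assoc]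
        _ = X * P * Y * N := by rw [hAY]; simp only [mul_assoc]
    have hGC : Commute G (X * P * Y) := hcommN _ hCN S hSN g
    have hGX : ∀ m ∈ M, G (X m) = 0 := by
      have h1 : Set.MapsTo (G * X : H →L[ℂ] H) (Set.range (Y * F : H →L[ℂ] H)) {0} := by
        rintro _ ⟨w, rfl⟩
        show (G * X * (Y * F)) w = 0
        have : G * X * (Y * F) = 0 := by
          calc G * X * (Y * F) = G * (X * Y * F) := by simp only [mul_assoc]
            _ = G * (F * (X * Y)) := by rw [hFXY.eq]
            _ = G * F * (X * Y) := by simp only [mul_assoc]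
            _ = 0 := by rw [hGF, zero_mul]
        rw [this]; rfl
      have h2 := h1.closure (G * X : H →L[ℂ] H).continuous
      intro m hm
      have := h2 hm
      simpa using this
    have hGXP : G * (X * P * Y) = 0 := by
      ext x
      exact hGX _ (hPmem (Y x))
    have hPYG : ∀ x, P (Y (G x)) = 0 := by
      intro x
      apply hXinj
      have : (X * P * Y * G) x = 0 := by
        rw [← hGC.eq, hGXP]; rfl
      rw [map_zero]
      exact this
    have horth : ∀ x y, ⟪Y (G x), Y (F y)⟫_ℂ = 0 := by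
      intro x y
      have hmem : Y (F y) ∈ M := Submodule.le_topologicalClosure _ ⟨y, rfl⟩
      have h1 := Submodule.starProjection_inner_eq_zero (K := M) (Y (G x)) (Y (F y)) hmem
      rw [← hP, hPYG, sub_zero] at h1
      exact h1
    ext x
    have h1 : ∀ y, ⟪(F * (star Y * Y) * G) x, y⟫_ℂ = 0 := by
      intro y
      have e1 : ⟪(F * (star Y * Y) * G) x, y⟫_ℂ = ⟪Y (G x), Y (F y)⟫_ℂ := by
        show ⟪F ((star Y) (Y (G x))), y⟫_ℂ = _
        rw [← ContinuousLinearMap.adjoint_inner_right F, ← ContinuousLinearMap.star_eq_adjoint,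
          hFsa.star_eq, ContinuousLinearMap.star_eq_adjoint, ContinuousLinearMap.adjoint_inner_left]
      rw [e1]; exact horth x y
    have h2 := h1 ((F * (star Y * Y) * G) x)
    rw [inner_self_eq_zero] at h2
    exact h2
  set B := star Y * Y with hB
  have hBsa : IsSelfAdjoint B := IsSelfAdjoint.star_mul_self Y
  have hBN : N * B = B * N := by
    have c1 := hcommS (N + star N) (Or.inl rfl) (by
      rw [IsSelfAdjoint, star_add, star_star, add_comm])
    have c2 := hcommS (Complex.I • (N - star N)) (Or.inr rfl) (by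
      rw [IsSelfAdjoint, star_smul, star_sub, star_star,
        show star Complex.I = -Complex.I from Complex.conj_I, neg_smul, ← smul_neg, neg_sub])
    have e1 : (2 : ℂ) • N = (N + star N) + (-Complex.I) • (Complex.I • (N - star N)) := by
      rw [smul_smul]
      have : -Complex.I * Complex.I = 1 := by simp
      rw [this, one_smul, two_smul]
      abel
    have e2 : (2 : ℂ) • (N * B) = (2 : ℂ) • (B * N) := by
      rw [← smul_mul_assoc, ← mul_smul_comm, e1, add_mul, mul_add, c1, smul_mul_assoc,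
        mul_smul_comm, c2]
    have := congrArg (fun Z => (2 : ℂ)⁻¹ • Z) e2
    simpa [smul_smul] using this
  have hYinj : ∀ z, (star Y) z = 0 → z = 0 := by
    intro z hz
    have h1 : ∀ w : H, ⟪z, w⟫_ℂ = 0 := by
      intro w
      have h2 : (fun w : H => ⟪z, w⟫_ℂ) = fun _ => 0 := by
        refine hYdense.equalizer (by fun_prop) (by fun_prop) ?_
        funext x
        show ⟪z, Y x⟫_ℂ = 0
        rw [← ContinuousLinearMap.adjoint_inner_left, ← ContinuousLinearMap.star_eq_adjoint, hz,
          inner_zero_left]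
      exact congrFun h2 w
    exact inner_self_eq_zero.1 (h1 z)
  have hAstar : star A * Y = Y * star N := by
    have h1 : star Y * (star A * Y) = star Y * (Y * star N) := by
      have e1 : star Y * (star A * Y) = star (B * N) := by
        rw [hB, mul_assoc, ← hAY]
        simp [star_mul, mul_assoc]
      have e2 : star Y * (Y * star N) = star (N * B) := by
        rw [star_mul, hBsa.star_eq, hB, mul_assoc]
      rw [e1, e2, hBN]
    have h2 : ∀ x, (star A * Y) x = (Y * star N) x := by
      intro x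
      have := hYinj ((star A * Y) x - (Y * star N) x) (by
        rw [map_sub]
        have := congrArg (fun Z : H →L[ℂ] H => Z x) h1
        exact sub_eq_zero.2 this)
      exact sub_eq_zero.1 this
    ext x
    exact h2 x
  constructor
  show star A * A = A * star A
  have h1 : (star A * A) * Y = (A * star A) * Y := by
    calc (star A * A) * Y = star A * (A * Y) := by rw [mul_assoc]
      _ = star A * Y * N := by rw [hAY, mul_assoc]
      _ = Y * (star N * N) := by rw [hAstar, mul_assoc]
      _ = Y * (N * star N) := by rw [hN.star_comm_self.eq]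
      _ = A * Y * star N := by rw [hAY, mul_assoc]
      _ = (A * star A) * Y := by rw [mul_assoc, ← hAstar, mul_assoc]
  have h2 : (fun x => (star A * A) x) = fun x => (A * star A) x := by
    refine hYdense.equalizer (star A * A).continuous (A * star A).continuous ?_
    funext x
    exact congrArg (fun Z : H →L[ℂ] H => Z x) h1
  ext x
  exact congrFun h2 x

/-- A quasi-affinity: an injective bounded operator with dense range. -/
def QuasiAffinity (X : H →L[ℂ] H) : Prop := Function.Injective X ∧ DenseRange X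

/-- `A` and `B` are quasi-similar. -/
def QuasiSimilar (A B : H →L[ℂ] H) : Prop :=
  ∃ X Y : H →L[ℂ] H, QuasiAffinity X ∧ QuasiAffinity Y ∧
    X ∘L A = B ∘L X ∧ A ∘L Y = Y ∘L B

/-- The algebra generated by `A` is reductive: every closed subspace invariant under `A`
is invariant under the adjoint of `A` (i.e. reduces `A`). -/
def Reductive (A : H →L[ℂ] H) : Prop :=
  ∀ M : Submodule ℂ H, IsClosed (M : Set H) → (∀ x ∈ M, A x ∈ M) →
    ∀ x ∈ M, (ContinuousLinearMap.adjoint A) x ∈ M

/-- Every operator on a complex Hilbert space that is quasi-similar to a normal operator and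
generates a reductive algebra is normal. -/
theorem result (A : H →L[ℂ] H) (hqs : ∃ N : H →L[ℂ] H, IsStarNormal N ∧ QuasiSimilar A N)
    (hred : Reductive A) : IsStarNormal A := by
  obtain ⟨N, hN, X, Y, hX, hY, h1, h2⟩ := hqs
  exact normal_of_reductive A N X Y hN hX.1 hY.2 h1 h2 hred

end op

end Pool.Agent.Results.MP_65e938_an.ReductiveNormal
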